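import Pool.Agent.R537.HA.PolyT
import Pool.Agent.R537.HA.Mem

/-!
# The Hadamard decomposition problem is `∃ℝ`-complete

Sketch of the hardness proof.  Let `M` contain the identity matrix of size `4 k`, `k > 4`, whose
rows and columns are indexed by pairs `(s, t)` with `s < 4`, `t < k`, and let the other rows and
columns be linear combinations of the unit rows and columns.  If `M = A ⊙ B` with
`rank A = 4`, `rank B = k`, then every row is a tensor `a ⊗ b` of a vector of `ℝ⁴` and a vector
of `ℝᵏ`, the unit rows form a basis of `ℝ⁴ ⊗ ℝᵏ`, and every linear relation between the rows holds
for the tensors.  The rows `e_{s,t} + e_{s,t'}` force all the first factors of a block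
`{(s, t) : t < k}` to be parallel (else all the second factors are parallel, which would give
`k > 4` independent vectors in `ℝ⁴`).  So the four blocks are four bases of `ℝᵏ`, that is, four
`k × k` matrices `P₀ = 1, P₁, P₂, P₃`; a further row says that `P_s u_s` are multiples of one vector,
and a further column says that `v_s` are multiples of the pullbacks `P_sᵀ β` of one covector.

Columns force that `P_s` has nonzero entries only in row `0` and on the diagonal.  The matrix `P₁`
has all `P₁ e_i = x_i e_0 + e_i` (up to a common factor) and carries the values `x_i`; rows give
linear equations between them.  The matrices `P₂`, `P₃` have free diagonal entries and are used for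
the multiplication.
-/

namespace Pool.Agent.Results.MP_c79a71_lc.HadamardDecompositionComplete

open Pool.Agent.NPC Pool.Agent.NPC.ER Pool.Agent.NPC.R537HA

/-- The Hadamard decomposition problem is `∃ℝ`-complete under polynomial-time many-one reductions,
and it remains so if the first rank is fixed to be `4`. -/
theorem result : ERComplete (lang HadamardDecomposition) ∧
    ERComplete (lang fun I : RMat × ℕ => HadamardDecomposition (I.1, 4, I.2)) :=
  ⟨⟨hd_mem, hd_hard⟩, ⟨hd_mem4, hd_hard4⟩⟩

end Pool.Agent.Results.MP_c79a71_lc.HadamardDecompositionComplete
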